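import Pool.Agent.Q9.EL.Pure

/-!
# The mean value of the complex powers of the L-functions of motives on the edge is one

Let `M` be a Chow motive over a number field `K` (for example over `K = ℚ`) and `H = H^i(M)`, of
dimension `N`.  The `L`-function `L(H, s)` is an Euler product over the primes of `K`, absolutely
convergent for `Re s > i/2 + 1`; nothing is known about a continuation, or about zeros and poles, at the
points of the edge `Re s = i/2 + 1`.  Nothing of this kind is assumed.

All that the theorem uses about `M` is that the eigenvalues `α_{v,1}, …, α_{v,N}` of the geometric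
Frobenius on `H` have the absolute value `Nv^{i/2}` at the primes `v ∉ S`, which is the theorem of
Deligne if `S` contains the primes of bad reduction.

`c` is a completely multiplicative function with `|c| ≤ 1`, for example `c(n) = χ(n) n^{-ih}` with a
Dirichlet character `χ` and a real number `h`: this gives the twists of `M` and the values at different
points of the edge.
-/

set_option autoImplicit false

namespace Pool.Agent.Results.MP_148101_nt.PowerMeans

open NumberField IsDedekindDomain MeasureTheory Filter Topology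

/-- `H^i(M)` for a Chow motive `M` over a number field `K`: the dimension `N`, a set `S` of primes of
`K`, and the eigenvalues `α_{v,1}, …, α_{v,N}` of Frobenius at the primes `v ∉ S`, of absolute value
`Nv^{i/2}`; and a completely multiplicative function `c` with `|c| ≤ 1`. -/
structure Motive where
  K : Type
  [field : Field K]
  [numberField : NumberField K]
  N : ℕ
  i : ℤ
  S : Set (HeightOneSpectrum (𝓞 K))
  α : HeightOneSpectrum (𝓞 K) → Fin N → ℂ
  pure : ∀ v, v ∉ S → ∀ j, ‖α v j‖ = (Ideal.absNorm v.asIdeal : ℝ) ^ ((i : ℝ) / 2)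
  c : ℕ →* ℂ
  norm_c : ∀ n, ‖c n‖ ≤ 1

attribute [instance] Motive.field Motive.numberField

/-- `[K : ℚ] dim H^i(M)`, the dimension of the representation of `Gal(ℚ̄/ℚ)` induced from
`H^i(M)`. -/
noncomputable def degree (D : Motive) : ℝ := (Module.finrank ℚ D.K : ℝ) * D.N

open Classical in
/-- `L_S(H^i(M) ⊗ c, s)`, the product over the primes `v ∉ S` of `K` of the Euler factors
`∏_j (1 - c(Nv) α_{v,j} Nv^{-s})⁻¹`. -/
noncomputable def LFun (D : Motive) (s : ℂ) : ℂ :=
  ∏' v : HeightOneSpectrum (𝓞 D.K), if v ∈ D.S then 1 else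
    ∏ j, (1 - D.c (Ideal.absNorm v.asIdeal) * D.α v j * (Ideal.absNorm v.asIdeal : ℂ) ^ (-s))⁻¹

open Classical in
/-- The logarithm of `L_S(H^i(M) ⊗ c, s)` for `Re s > i/2 + 1`, the sum of the principal values of the
logarithms of the Euler factors. -/
noncomputable def logL (D : Motive) (s : ℂ) : ℂ :=
  ∑' v : HeightOneSpectrum (𝓞 D.K), if v ∈ D.S then 0 else
    ∑ j, -Complex.log (1 - D.c (Ideal.absNorm v.asIdeal) * D.α v j *
      (Ideal.absNorm v.asIdeal : ℂ) ^ (-s))

/-- The point `i/2 + 1 + iτ` of the edge. -/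
noncomputable def edgePoint (D : Motive) (τ : ℝ) : ℂ :=
  (((D.i : ℝ) / 2 + 1 : ℝ) : ℂ) + τ * Complex.I

/-- The angle `|s - (i/2 + 1 + iτ)| ≤ C (Re s - (i/2 + 1))` in the half-plane `Re s > i/2 + 1`. -/
def angle (D : Motive) (τ C : ℝ) : Set ℂ :=
  {s : ℂ | (D.i : ℝ) / 2 + 1 < s.re ∧ ‖s - edgePoint D τ‖ ≤ C * (s.re - ((D.i : ℝ) / 2 + 1))}

/-- The boundary value of the logarithm at the point `i/2 + 1 + iτ`: its limit there along the
horizontal line. -/
noncomputable def edgeLog (D : Motive) (τ : ℝ) : ℂ :=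
  limUnder (𝓝[>] (0 : ℝ)) fun h : ℝ => logL D (edgePoint D τ + h)

/-- The boundary value `L^z = exp(z log L)` of the complex power at the point `i/2 + 1 + iτ`. -/
noncomputable def power (D : Motive) (z : ℂ) (τ : ℝ) : ℂ := Complex.exp (z * edgeLog D τ)

/-- **Means of complex powers on the edge.**  Let `M_1, …, M_m` be motives and `z_1, …, z_m` complex
numbers with `κ = ∑_j |z_j| [K_j : ℚ] dim H_j < 1`.

* `logL` is a logarithm of the Euler product to the right of the edge, and for all real `τ` outside a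
  set of Hausdorff dimension zero it tends to `edgeLog τ` in every angle at `i/2 + 1 + iτ`.
* The product of the boundary functions `L_j^{z_j}` is integrable over every interval `[a, b]`, and its
  integral differs from `b - a` by at most `2 ∫_1^∞ (ζ(x)^κ - 1) dx`, which is finite. -/
theorem result (m : ℕ) (D : Fin m → Motive) (z : Fin m → ℂ) (κ : ℝ)
    (hκ : κ = ∑ j, ‖z j‖ * degree (D j)) (hκ1 : κ < 1) :
    (∀ j, (∀ s : ℂ, ((D j).i : ℝ) / 2 + 1 < s.re → LFun (D j) s = Complex.exp (logL (D j) s)) ∧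
      dimH {τ : ℝ | ¬ ∀ C : ℝ, Tendsto (logL (D j)) (𝓝[angle (D j) τ C] (edgePoint (D j) τ))
        (𝓝 (edgeLog (D j) τ))} = 0) ∧
    IntegrableOn (fun x : ℝ => ‖riemannZeta (x : ℂ)‖ ^ κ - 1) (Set.Ioi 1) ∧
    ∀ a b : ℝ, a ≤ b →
      IntervalIntegrable (fun τ => ∏ j, power (D j) (z j) τ) volume a b ∧
      ‖(∫ τ in a..b, ∏ j, power (D j) (z j) τ) - (b - a : ℝ)‖ ≤
        2 * ∫ x in Set.Ioi (1 : ℝ), (‖riemannZeta (x : ℂ)‖ ^ κ - 1) := by
  subst hκ
  have hpur : ∀ j, ∀ v, v ∉ (D j).S → ∀ k, ‖(D j).α v k‖ ≤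
      (Pool.Agent.TH339.MP.nm v : ℝ) ^ (((D j).i : ℝ) / 2) := fun j v hv k =>
    ((D j).pure v hv k).le
  set b : Fin m → Pool.Agent.TH339.MP.PP → ℂ := fun j => Pool.Agent.TH339.MP.bb
    (Pool.Agent.Y770.SC.tw (D j).c (Pool.Agent.Q9.EL.nbw ((D j).i : ℝ) (D j).S (D j).α)) with hb
  have hbn : ∀ j x, ‖b j x‖ ≤ degree (D j) / (x.2 + 1 : ℕ) := fun j x =>
    Pool.Agent.Q9.EL.norm_bw le_rfl (D j).norm_c (hpur j) x
  have hlog : ∀ j, ∀ s : ℂ, ((D j).i : ℝ) / 2 + 1 < s.re →
      logL (D j) s = Pool.Agent.Q9.EL.lw ((D j).i : ℝ) (b j) s := by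
    intro j s hs
    have h1 : 1 < (s - ((D j).i : ℝ) / 2).re := by
      have e : (s - (((D j).i : ℝ) : ℂ) / 2).re = s.re - (D j).i / 2 := by simp
      rw [e]
      linarith
    have h2 := Pool.Agent.Q9.EL.logC_eq (c := (D j).c) (D j).norm_c (hpur j) h1
    rw [sub_add_cancel] at h2
    exact h2
  have hexp : ∀ j, ∀ s : ℂ, ((D j).i : ℝ) / 2 + 1 < s.re →
      LFun (D j) s = Complex.exp (logL (D j) s) := by
    intro j s hs
    have h1 : 1 < (s - ((D j).i : ℝ) / 2).re := by
      have e : (s - (((D j).i : ℝ) : ℂ) / 2).re = s.re - (D j).i / 2 := by simp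
      rw [e]
      linarith
    have h2 := Pool.Agent.Q9.EL.LCw_eq (c := (D j).c) (D j).norm_c (hpur j) h1
    rw [sub_add_cancel] at h2
    rw [hlog j s hs]
    exact h2
  have hedge : ∀ j τ, edgeLog (D j) τ = Pool.Agent.Q9.EL.bvw ((D j).i : ℝ) (b j) τ :=
    fun j τ => Pool.Agent.Q9.EL.limUnder_cong (hlog j) τ
  have hM0 : 0 ≤ ∑ j, ‖z j‖ * degree (D j) :=
    Finset.sum_nonneg fun j _ => mul_nonneg (norm_nonneg _) (by unfold degree; positivity)
  refine ⟨fun j => ⟨hexp j, ?_⟩, Pool.Agent.Q9.EL.gk_int hM0 hκ1, fun a b' hab => ?_⟩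
  · simp_rw [hedge]
    exact Pool.Agent.Q9.EL.dim_exc_w (hbn j) (hlog j)
  · obtain ⟨h1, h2⟩ := Pool.Agent.Q9.EL.hol_comb hbn z hκ1 hab
    have hae : ∀ᵐ τ : ℝ, ∏ j, power (D j) (z j) τ =
        Complex.exp (∑ j, z j * Pool.Agent.TH339.MP.bl (b j) τ) := by
      have h3 : ∀ᵐ τ : ℝ, ∀ j, edgeLog (D j) τ = Pool.Agent.TH339.MP.bl (b j) τ := by
        rw [ae_all_iff]
        intro j
        filter_upwards [Pool.Agent.Q9.EL.bvw_ae (hbn j) (w := ((D j).i : ℝ))] with τ hτ
        rw [hedge]
        exact hτ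
      filter_upwards [h3] with τ hτ
      rw [Complex.exp_sum]
      refine Finset.prod_congr rfl fun j _ => ?_
      unfold power
      rw [hτ j]
    refine ⟨(intervalIntegrable_congr_ae (ae_restrict_of_ae ?_)).1 h1, ?_⟩
    · filter_upwards [hae] with τ hτ
      exact hτ.symm
    · have e1 : ∫ τ in a..b', ∏ j, power (D j) (z j) τ =
          ∫ τ in a..b', Complex.exp (∑ j, z j * Pool.Agent.TH339.MP.bl (b j) τ) := by
        refine intervalIntegral.integral_congr_ae ?_
        filter_upwards [hae] with τ hτ _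
        exact hτ
      rw [intervalIntegral.integral_sub h1 intervalIntegrable_const,
        intervalIntegral.integral_const] at h2
      have e2 : ((b' - a : ℝ) : ℂ) = (b' - a) • (1 : ℂ) := by simp
      rw [e1, e2]
      exact h2

end Pool.Agent.Results.MP_148101_nt.PowerMeans
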