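import Mathlib
import Pool.Agent.Q12.GS.Bd

/-! The boundary values control the size near the edge, jointly for tempered representations of `GSp(2n)`. -/

set_option autoImplicit false

open Filter Topology MeasureTheory
open Pool.Agent.Q12.GS

namespace Pool.Agent.Results.MP_eea520_nt.EdgeHarnack

/-- the mean of `∏_j |l_j|^{c_j}` over the interval of length `h` with the centre `τ` -/
noncomputable def mean {ι : Type} [Fintype ι] (l : ι → ℝ → ℂ) (c : ι → ℝ) (τ h : ℝ) : ℝ :=
  (∫ u in (τ - h / 2)..(τ + h / 2), ∏ j, ‖l j u‖ ^ c j) / h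

/-- the value of `∏_j |L_j|^{c_j}` at `1 + h + iτ` -/
noncomputable def inside {ι : Type} [Fintype ι] (D : ι → Datum) (c : ι → ℝ) (τ h : ℝ) : ℝ :=
  ∏ j, ‖(D j).LFun (edge τ + h)‖ ^ c j

/-- **Boundary values and the size near the edge.** Let `L_j = L_{S_j}(s, π_j, ρ_j)` be finitely many Euler products
for the groups `GSp(2n_j)`, all of them tempered, `m_j` the degree of `ρ_j`. There are functions `l_j` on the real line
such that, for all `τ` outside a set of Hausdorff dimension `0`, `l_j(τ) ≠ 0` and `L_j(s) → l_j(τ)` as `s → 1 + iτ` in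
any angle in the half-plane `Re s > 1`; and for all real exponents `c_j` with `∑ |c_j| m_j < 1`, all `τ` and all
`0 < h ≤ 1/2`, with `A = 1000 / (1 - ∑ |c_j| m_j)`,

1. `∏ |l_j|^{c_j}` is integrable over bounded intervals, and its mean over the interval of length `h` with the centre
  `τ` lies between `A⁻¹ ∏ |L_j(1 + h + iτ)|^{c_j}` and `A ∏ |L_j(1 + h + iτ)|^{c_j}`;
2. the product of the means of `∏ |l_j|^{c_j}` and of its inverse over this interval is at most `A²` (it is a
  Muckenhoupt `A_2` weight).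
3. For `c ≠ 0` and one function `L = L_j`: `log |L(1 + h + iτ)| / log h → r` for `h → 0` (the behaviour at a zero or
  pole of order `r`) if and only if `log (mean of |l|^c) / (c log h) → r`. -/
theorem result (ι : Type) [Fintype ι] (D : ι → Datum) (hD : ∀ j, (D j).Tempered) :
    ∃ l : ι → ℝ → ℂ,
      (∃ N : Set ℝ, dimH N = 0 ∧ ∀ τ : ℝ, τ ∉ N → ∀ j, l j τ ≠ 0 ∧ ∀ C : ℝ,
        Tendsto (D j).LFun (𝓝[angle τ C] (edge τ)) (𝓝 (l j τ))) ∧
      (∀ c : ι → ℝ, ∑ j, |c j| * (D j).m < 1 → ∀ τ h : ℝ, 0 < h → h ≤ 1 / 2 →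
        IntegrableOn (fun u => ∏ j, ‖l j u‖ ^ c j) (Set.Icc (τ - h / 2) (τ + h / 2)) ∧
        (1000 / (1 - ∑ j, |c j| * (D j).m))⁻¹ * inside D c τ h ≤ mean l c τ h ∧
        mean l c τ h ≤ 1000 / (1 - ∑ j, |c j| * (D j).m) * inside D c τ h ∧
        mean l c τ h * mean l (-c) τ h ≤ (1000 / (1 - ∑ j, |c j| * (D j).m)) ^ 2) ∧
      ∀ j, ∀ c : ℝ, c ≠ 0 → |c| * (D j).m < 1 → ∀ τ r : ℝ,
        (Tendsto (fun h : ℝ => Real.log ‖(D j).LFun (edge τ + h)‖ / Real.log h) (𝓝[>] 0) (𝓝 r) ↔
          Tendsto (fun h : ℝ => Real.log ((∫ u in (τ - h / 2)..(τ + h / 2), ‖l j u‖ ^ c) / h) / (c * Real.log h))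
            (𝓝[>] 0) (𝓝 r)) := by
  refine ⟨fun j => lb (D j), ⟨_, exc_dim hD, fun τ hτ j => ⟨lb_ne _ _, fun C => ?_⟩⟩, ?_, ?_⟩
  · refine LFun_angle (hD j) (fun h => hτ ?_) C
    exact Set.mem_iUnion.2 ⟨j, h⟩
  · intro c hc τ h hh hh2
    obtain ⟨i1, i2, i3⟩ := harnack hD Finset.univ c hc hh hh2 τ
    have hcm : ∑ j, |(-c) j| * (D j).m < 1 := by
      simpa only [Pi.neg_apply, abs_neg] using hc
    obtain ⟨-, -, j3⟩ := harnack hD Finset.univ (-c) hcm hh hh2 τ
    have hA : 0 < 1 - ∑ j, |c j| * (D j).m := by linarith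
    have hinv : inside D (-c) τ h = (inside D c τ h)⁻¹ := by
      unfold inside
      rw [← Finset.prod_inv_distrib]
      refine Finset.prod_congr rfl fun j _ => ?_
      rw [Pi.neg_apply, Real.rpow_neg (norm_nonneg _)]
    have hpos : 0 < inside D c τ h := by
      unfold inside
      refine Finset.prod_pos fun j _ => Real.rpow_pos_of_pos (norm_pos_iff.2 ?_) _
      rw [LFun_exp (hD j) (by unfold edge; simp [hh])]
      exact Complex.exp_ne_zero _
    have e2 : mean (fun j => lb (D j)) c τ h ≤ 1000 / (1 - ∑ j, |c j| * (D j).m) * inside D c τ h := by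
      unfold mean inside
      rw [div_le_iff₀ hh]
      refine i3.trans (le_of_eq ?_)
      ring
    have e3 : mean (fun j => lb (D j)) (-c) τ h ≤ 1000 / (1 - ∑ j, |c j| * (D j).m) * (inside D c τ h)⁻¹ := by
      rw [← hinv]
      unfold mean inside
      rw [div_le_iff₀ hh]
      refine j3.trans (le_of_eq ?_)
      simp only [Pi.neg_apply, abs_neg]
      ring
    have e4 : 0 ≤ mean (fun j => lb (D j)) (-c) τ h := by
      unfold mean
      refine div_nonneg (intervalIntegral.integral_nonneg (by linarith) fun u _ => ?_) hh.le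
      exact Finset.prod_nonneg fun j _ => Real.rpow_nonneg (norm_nonneg _) _
    refine ⟨i1, ?_, e2, ?_⟩
    · unfold mean inside
      rw [le_div_iff₀ hh, inv_div]
      refine le_trans (le_of_eq ?_) i2
      ring
    · calc _ ≤ (1000 / (1 - ∑ j, |c j| * (D j).m) * inside D c τ h) *
            (1000 / (1 - ∑ j, |c j| * (D j).m) * (inside D c τ h)⁻¹) :=
            mul_le_mul e2 e3 e4 (by positivity)
        _ = _ := by
            field_simp
  · intro j c hc hcm τ r
    have key : ∀ h : ℝ, 0 < h → h ≤ 1 / 2 →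
        (1000 / (1 - |c| * (D j).m))⁻¹ * ‖(D j).LFun (edge τ + h)‖ ^ c ≤
          (∫ u in (τ - h / 2)..(τ + h / 2), ‖lb (D j) u‖ ^ c) / h ∧
        (∫ u in (τ - h / 2)..(τ + h / 2), ‖lb (D j) u‖ ^ c) / h ≤
          1000 / (1 - |c| * (D j).m) * ‖(D j).LFun (edge τ + h)‖ ^ c := by
      intro h hh hh2
      obtain ⟨-, i2, i3⟩ := harnack hD {j} (fun _ => c) (by simpa using hcm) hh hh2 τ
      simp only [Finset.prod_singleton, Finset.sum_singleton] at i2 i3
      constructor
      · rw [le_div_iff₀ hh, inv_div]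
        refine le_trans (le_of_eq ?_) i2
        ring
      · rw [div_le_iff₀ hh]
        refine i3.trans (le_of_eq ?_)
        ring
    refine exponent hc (fun h hh _ => norm_pos_iff.2 ?_) key (by
      have : 0 < 1 - |c| * (D j).m := by linarith
      positivity)
    rw [LFun_exp (hD j) (by unfold edge; simp [hh])]
    exact Complex.exp_ne_zero _

end Pool.Agent.Results.MP_eea520_nt.EdgeHarnack
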